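import Pool.Agent.MP_6601f2_co.Main

set_option autoImplicit false
open Module

namespace Pool.Agent.Results.MP_6601f2_co.DegreeBound

open Pool.Agent.MP_6601f2_co

variable {K V : Type*} [Field K] [Fintype K] [AddCommGroup V] [Module K V] [FiniteDimensional K V]

/-- Degree of `P`: the number of members of the family `𝓕` that contain `P`. -/
noncomputable def degree (𝓕 : Set (Submodule K V)) (P : Submodule K V) : ℕ :=
  Set.ncard {F : Submodule K V | F ∈ 𝓕 ∧ P ≤ F}

/-- The finite set of all points (one-dimensional subspaces) of `V`. -/
noncomputable def points (K V : Type*) [Field K] [Fintype K] [AddCommGroup V] [Module K V]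
    [FiniteDimensional K V] : Finset (Submodule K V) :=
  have : Finite (Submodule K V) := finite_submodule V
  (Set.toFinite {P : Submodule K V | finrank K P = 1}).toFinset

/-- The degrees of all points (with multiplicity), listed in non-increasing order. -/
noncomputable def sortedDegrees (𝓕 : Set (Submodule K V)) : List ℕ :=
  ((points K V).val.map (degree 𝓕)).sort (fun a b => b ≤ a)

/-- `d_j`: the `j`-th largest point-degree, `j = 1, 2, ...`. -/
noncomputable def largestDegree (𝓕 : Set (Submodule K V)) (j : ℕ) : ℕ :=
  (sortedDegrees 𝓕).getD (j - 1) 0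

theorem list_aux (l : List ℕ) (hl : l.Pairwise (fun a b => b ≤ a)) (j B : ℕ)
    (h : B < l.getD j 0) : j + 1 ≤ l.countP (fun a => decide (B < a)) := by
  have hj : j < l.length := by
    by_contra hlt
    push Not at hlt
    rw [List.getD_eq_default _ _ hlt] at h
    omega
  rw [List.getD_eq_getElem _ _ hj] at h
  have h1 : (l.take (j + 1)).countP (fun a => decide (B < a)) = j + 1 := by
    rw [List.countP_eq_length.mpr]
    · rw [List.length_take]; omega
    · intro a ha
      rw [List.mem_take_iff_getElem] at ha
      obtain ⟨i, hi, rfl⟩ := ha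
      have hij : i ≤ j := by omega
      have : l[j] ≤ l[i] := by
        rcases hij.eq_or_lt with rfl | hlt
        · exact le_rfl
        · exact List.pairwise_iff_getElem.mp hl i j (by omega) hj hlt
      simpa using lt_of_lt_of_le h this
  calc j + 1 = (l.take (j + 1)).countP (fun a => decide (B < a)) := h1.symm
    _ ≤ l.countP (fun a => decide (B < a)) :=
      List.Sublist.countP_le (List.take_sublist _ _)

/-- For every finite field with `q` elements, all `3 ≤ i ≤ k` and `n ≥ 3k`, every intersecting
family of `k`-dimensional subspaces of an `n`-dimensional space satisfies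
`d_{[i+1]} ≤ binom(n-2,k-2)_q + q^(k-1) binom(n-i-1,k-i)_q`. -/
theorem result {K V : Type*} [Field K] [Fintype K] [AddCommGroup V] [Module K V]
    [FiniteDimensional K V] {n k i : ℕ} (hn : finrank K V = n) (hi : 3 ≤ i) (hik : i ≤ k)
    (hkn : 3 * k ≤ n) (𝓕 : Set (Submodule K V)) (hdim : ∀ F ∈ 𝓕, finrank K F = k)
    (hint : ∀ F ∈ 𝓕, ∀ G ∈ 𝓕, 1 ≤ finrank K (F ⊓ G : Submodule K V)) :
    (largestDegree 𝓕 ((Fintype.card K ^ (i + 1) - 1) / (Fintype.card K - 1)) : ℚ) ≤
      gaussBinom (Fintype.card K) (n - 2) (k - 2) +
        (Fintype.card K : ℚ) ^ (k - 1) * gaussBinom (Fintype.card K) (n - i - 1) (k - i) := by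
  classical
  have hfin : Finite (Submodule K V) := finite_submodule V
  have hq : 1 < Fintype.card K := Fintype.one_lt_card
  subst hn
  set q := Fintype.card K with hqdef
  have hbr : (q ^ (i + 1) - 1) / (q - 1) = br q (i + 1) := by
    unfold br
    rw [← Nat.geomSum_eq (by omega : 2 ≤ q)]
  rw [hbr]
  by_contra hcon
  push Not at hcon
  set 𝓕' : Finset (Submodule K V) := (Set.toFinite 𝓕).toFinset with h𝓕'
  have hmem : ∀ F, F ∈ 𝓕' ↔ F ∈ 𝓕 := fun F => by simp [h𝓕']
  have hdeg : ∀ P, degree 𝓕 P = cnt 𝓕' P := by
    intro P
    unfold degree cnt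
    rw [← Set.ncard_coe_finset]
    congr 1
    ext F
    simp [hmem]
  set bound : ℚ := gaussBinom q (finrank K V - 2) (k - 2) +
    (q : ℚ) ^ (k - 1) * gaussBinom q (finrank K V - i - 1) (k - i) with hbound
  -- the points of large degree
  set S : Finset (Submodule K V) := (points K V).filter (fun P => bound < (degree 𝓕 P : ℚ)) with hS
  have hlt := core (K := K) (V := V) hi hik hkn (𝓕 := 𝓕') (fun F hF => hdim F ((hmem F).mp hF))
    (fun F hF G hG => by
      intro hbot
      have := hint F ((hmem F).mp hF) G ((hmem G).mp hG)
      rw [hbot, finrank_bot] at this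
      omega) S
    (fun P hP => by
      rw [hS, Finset.mem_filter] at hP
      have := hP.1
      simp only [points, Set.Finite.mem_toFinset] at this
      exact this)
    (fun P hP => by
      rw [hS, Finset.mem_filter] at hP
      rw [← hdeg]
      exact hP.2)
  -- bound is attained by an integer threshold
  have hpos : 1 ≤ br q (i + 1) := by
    have := br_lt hq (show 0 < i + 1 by omega)
    omega
  have hge : br q (i + 1) ≤ S.card := by
    -- an integer `B` with `B ≤ degree - 1` for the degree in question
    set D := largestDegree 𝓕 (br q (i + 1)) with hD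
    have hDpos : 0 < D := by
      rcases Nat.eq_zero_or_pos D with h0 | h0
      · exfalso
        rw [h0] at hcon
        have h1 : 0 ≤ bound := by
          have hnn : ∀ d ≤ finrank K V, ∀ j, 0 ≤ gaussBinom q (finrank K V - d) j := by
            intro d hd j
            obtain ⟨B, -, -, hB⟩ := exists_mid (A := (⊥ : Submodule K V)) (W := ⊤) bot_le (d := d)
              (by simp) (by rw [finrank_top]; exact hd)
            have := card_above_exact B j
            rw [hB] at this
            rw [hqdef, ← this]
            positivity
          have h2 := hnn 2 (by omega) (k - 2)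
          have h3 := hnn (i + 1) (by omega) (k - i)
          rw [show finrank K V - (i + 1) = finrank K V - i - 1 from by omega] at h3
          positivity
        simp only [Nat.cast_zero] at hcon
        linarith
      · exact h0
    have h1 := list_aux (sortedDegrees 𝓕) (by
      unfold sortedDegrees
      exact Multiset.pairwise_sort _ _) (br q (i + 1) - 1) (D - 1) (by
        change D - 1 < D
        omega)
    have h2 : (sortedDegrees 𝓕).countP (fun a => decide (D - 1 < a)) =
        ((points K V).filter (fun P => D - 1 < degree 𝓕 P)).card := by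
      rw [← Multiset.coe_countP (fun a => D - 1 < a) (sortedDegrees 𝓕)]
      unfold sortedDegrees
      rw [Multiset.sort_eq, Multiset.countP_map]
      rfl
    rw [h2] at h1
    have h3 : (points K V).filter (fun P => D - 1 < degree 𝓕 P) ⊆ S := by
      intro P hP
      rw [Finset.mem_filter] at hP
      rw [hS, Finset.mem_filter]
      refine ⟨hP.1, lt_of_lt_of_le hcon ?_⟩
      have : D ≤ degree 𝓕 P := by omega
      exact_mod_cast this
    have h4 := Finset.card_le_card h3
    omega
  rw [← hqdef] at hlt
  omega

end Pool.Agent.Results.MP_6601f2_co.DegreeBound
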